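import Pool.Agent.Helper40K9.Drn.DelG

/-!
# The bridge between graphs and rooted tree types (project DRN)
-/

set_option autoImplicit false

namespace Pool.Agent.Helper40K9.Drn

open Pool.Agent.Helper13K9.Drn

universe uu vv

/-! ### Counting edges -/

theorem card_edges {V : Type uu} [Finite V] (G : SimpleGraph V) (x : V) :
    Nat.card G.edgeSet = Nat.card (Gd G x).edgeSet + (G.neighborSet x).ncard := by
  classical
  have : Fintype V := Fintype.ofFinite V
  have h1 : Nat.card (Gd G x).edgeSet = G.edgeFinset.card - G.degree x := by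
    rw [← G.card_edgeFinset_deleteIncidenceSet, ← G.card_edgeFinset_induce_compl_singleton x,
      SimpleGraph.edgeFinset_card, Nat.card_eq_fintype_card]
  have h2 : G.degree x ≤ G.edgeFinset.card := by
    rw [← G.card_incidenceFinset_eq_degree]
    exact Finset.card_le_card (G.incidenceFinset_subset x)
  have h3 : (G.neighborSet x).ncard = G.degree x := by
    rw [Set.ncard_eq_toFinset_card', SimpleGraph.degree, SimpleGraph.neighborFinset]
  rw [h1, Nat.card_eq_fintype_card, ← SimpleGraph.edgeFinset_card, h3]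
  omega

theorem edges_eq {V : Type uu} [Finite V] {T H : SimpleGraph V} {u x : V}
    (e : Gd T u ≃g Gd H x) (hd : (T.neighborSet u).ncard = (H.neighborSet x).ncard) :
    Nat.card T.edgeSet = Nat.card H.edgeSet := by
  rw [card_edges T u, card_edges H x, hd, Nat.card_congr e.mapEdgeSet]

/-! ### Reachability in vertex-deleted subgraphs -/

variable {V : Type uu} {G : SimpleGraph V}

theorem walk_Gd {p : V} {a b : ({p}ᶜ : Set V)} (q : (Gd G p).Walk a b) : (b : V) ∈ Bs G p a := by
  induction q with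
  | nil =>
    rename_i a
    exact Bs.self (fun h => a.2 h.symm)
  | cons h q ih =>
    rename_i a b c
    have hab : G.Adj (a : V) b := h
    exact Bs.trans (Bs.adj hab (fun h => a.2 h.symm) (fun h => b.2 h.symm)) ih

theorem Bs_iff {p v z : V} (hv : v ≠ p) (hz : z ≠ p) :
    z ∈ Bs G p v ↔ (Gd G p).Reachable (vx hv) (vx hz) := by
  constructor
  · rintro ⟨q, hq⟩
    exact ⟨q.induce ({p}ᶜ : Set V) (fun x hx => by
      intro he
      rw [Set.mem_singleton_iff] at he
      exact hq (he ▸ hx))⟩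
  · rintro ⟨q⟩
    exact walk_Gd q

theorem Gd_reach {p : V} {a b : ({p}ᶜ : Set V)} (h : (Gd G p).Reachable a b) :
    (b : V) ∈ Bs G p a := (Bs_iff a.2 b.2).2 h

theorem ne_of_mem_Bs {p v z : V} (h : z ∈ Bs G p v) : z ≠ p := by
  rintro rfl
  exact Bs.not_mem h

/-! ### The branches at a vertex -/

section rel

variable {V' : Type vv} [Finite V] [Finite V'] {G' : SimpleGraph V'}

/-- the branches at `x` in `G'` and at `u` in `G` have the same unrooted types if `G - u` and
`G' - x` are isomorphic -/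
theorem rel_branches (hG : G.IsTree) (hG' : G'.IsTree) {u : V} {x : V'}
    (e : Gd G u ≃g Gd G' x) (hd : (G.neighborSet u).ncard = (G'.neighborSet x).ncard) :
    Multiset.Rel UI (ch (code G' x)) (ch (code G u)) := by
  classical
  have h1 : ∀ w : V, ∃ w' : V', ∀ h : w ≠ u, G'.Adj x w' ∧ ((e (vx h) : ({x}ᶜ : Set V')) : V') ∈
      Bs G' x w' := by
    intro w
    by_cases h : w = u
    · exact ⟨x, fun h' => absurd h h'⟩
    · obtain ⟨w', h2, h3⟩ := Bs.step (hG'.connected.preconnected x (e (vx h) : ({x}ᶜ : Set V')))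
        (e (vx h)).2
      exact ⟨w', fun _ => ⟨h2, h3⟩⟩
  choose τ hτ using h1
  have hinj : Set.InjOn τ (nb G u : Set V) := by
    intro w hw w' hw' he
    rw [Finset.mem_coe, mem_nb] at hw hw'
    obtain ⟨_, h3⟩ := hτ w hw.ne'
    obtain ⟨_, h5⟩ := hτ w' hw'.ne'
    rw [← he] at h5
    have h6 := Bs.trans (Bs.symm h3) h5
    rw [Bs_iff (e (vx hw.ne')).2 (e (vx hw'.ne')).2] at h6
    have h7 : (Gd G u).Reachable (vx hw.ne') (vx hw'.ne') :=
      (SimpleGraph.Iso.reachable_iff (φ := e)).1 h6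
    exact Bs.key hG.isAcyclic hw hw' (Gd_reach h7)
  have himg : (nb G u).image τ = nb G' x := by
    apply Finset.eq_of_subset_of_card_le
    · intro w' hw'
      obtain ⟨w, hw, rfl⟩ := Finset.mem_image.1 hw'
      rw [mem_nb] at hw ⊢
      exact (hτ w hw.ne').1
    · rw [Finset.card_image_of_injOn hinj, card_nb, card_nb, hd]
  have hval : (nb G' x).val = (nb G u).val.map τ := by
    rw [← himg, Finset.image_val_of_injOn hinj]
  rw [code, code, ch_node, ch_node, hval, Multiset.map_map, Multiset.rel_map]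
  apply Multiset.rel_refl_of_refl_on
  intro w hw
  have hw' : w ∈ nb G u := hw
  rw [mem_nb] at hw'
  obtain ⟨h2, h3⟩ := hτ w hw'.ne'
  have h4 : br G u w = code (Gd G u) (vx hw'.ne') := br_eq_code hG.isAcyclic (vx hw'.ne') hw'
  have h5 : br G' x (τ w) = code (Gd G' x) (vx h2.ne') := br_eq_code hG'.isAcyclic (vx h2.ne') h2
  rw [Function.comp_apply, h4, h5, ← code_of_iso (hG.isAcyclic.induce _) e]
  exact code_UI (hG'.isAcyclic.induce _) ((Bs_iff h2.ne' (e (vx hw'.ne')).2).1 h3)

end rel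

/-! ### Recognising trees -/

section trees

variable [Finite V] {T H : SimpleGraph V}

theorem tree_of_leaf (hT : T.IsTree) {u x : V} (e : Gd T u ≃g Gd H x)
    (hd : (T.neighborSet u).ncard = (H.neighborSet x).ncard) (hu : IsLeaf T u) : H.IsTree := by
  classical
  have : Fintype V := Fintype.ofFinite V
  have h1 : (Gd T u).Connected := by
    apply hT.connected.induce_compl_singleton_of_degree_eq_one
    rw [isLeaf_iff, Set.ncard_eq_toFinset_card'] at hu
    exact hu
  have h2 : (Gd H x).Connected := e.connected_iff.1 h1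
  have h3 : IsLeaf H x := by
    rw [isLeaf_iff] at hu ⊢
    rw [← hd, hu]
  obtain ⟨t, ht⟩ := h3
  have hxt : H.Adj x t := (ht t).2 rfl
  have h4 : ∀ z, H.Reachable z t := by
    intro z
    by_cases hz : z = x
    · rw [hz]; exact hxt.reachable
    · exact Bs.reachable (Gd_reach (h2.preconnected (vx hz) (vx hxt.ne')))
  rw [SimpleGraph.isTree_iff_connected_and_card]
  have : Nonempty V := ⟨x⟩
  refine ⟨⟨fun a b => (h4 a).trans (h4 b).symm⟩, ?_⟩
  rw [← edges_eq e hd]
  exact (SimpleGraph.isTree_iff_connected_and_card.1 hT).2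

/-- a component of `H` which misses `x` has the size of a branch -/
theorem comp_size (hT : T.IsTree) {u x : V} (e : Gd T u ≃g Gd H x) {z : V}
    (hz : ¬ H.Reachable x z) :
    ∃ D ∈ ch (code T u), size D = {a | H.Reachable z a}.ncard := by
  classical
  have hzx : z ≠ x := by rintro rfl; exact hz (SimpleGraph.Reachable.refl _)
  obtain ⟨w, hw, hzw⟩ := Bs.step (hT.connected.preconnected u (e.symm (vx hzx) : ({u}ᶜ : Set V)))
    (e.symm (vx hzx)).2
  refine ⟨br T u w, ?_, ?_⟩
  · rw [code, ch_node]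
    exact Multiset.mem_map_of_mem _ (mem_nb.2 hw)
  rw [size_br hT.isAcyclic u w hw]
  have hwz : (Gd T u).Reachable (vx hw.ne') (e.symm (vx hzx)) :=
    (Bs_iff hw.ne' (e.symm (vx hzx)).2).1 hzw
  have h1 : (BF T u w : Set V) = Subtype.val ''
      {a : ({u}ᶜ : Set V) | (Gd T u).Reachable (vx hw.ne') a} := by
    ext a
    rw [Finset.mem_coe, mem_BF]
    constructor
    · intro ha
      exact ⟨vx (ne_of_mem_Bs ha), (Bs_iff hw.ne' (ne_of_mem_Bs ha)).1 ha, rfl⟩
    · rintro ⟨b, hb, rfl⟩
      exact Gd_reach hb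
  have h2 : {a | H.Reachable z a} = (fun a : ({u}ᶜ : Set V) => ((e a : ({x}ᶜ : Set V)) : V)) ''
      {a : ({u}ᶜ : Set V) | (Gd T u).Reachable (vx hw.ne') a} := by
    ext a
    constructor
    · rintro ⟨q⟩
      have h3 : a ∈ Bs H x z := by
        refine ⟨q, fun hx => hz ?_⟩
        exact (q.takeUntil x hx).reachable.symm
      have h4 : (Gd H x).Reachable (vx hzx) (vx (ne_of_mem_Bs h3)) := (Bs_iff _ _).1 h3
      refine ⟨e.symm (vx (ne_of_mem_Bs h3)), ?_, by simp⟩
      refine hwz.trans ?_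
      exact (SimpleGraph.Iso.reachable_iff (φ := e.symm)).2 h4
    · rintro ⟨b, hb, rfl⟩
      have h3 : (Gd T u).Reachable (e.symm (vx hzx)) b := hwz.symm.trans hb
      have h4 : (Gd H x).Reachable (e (e.symm (vx hzx))) (e b) :=
        (SimpleGraph.Iso.reachable_iff (φ := e)).2 h3
      rw [RelIso.apply_symm_apply] at h4
      exact Bs.reachable (Gd_reach h4)
  have h3 : (BF T u w).card = {a : ({u}ᶜ : Set V) | (Gd T u).Reachable (vx hw.ne') a}.ncard := by
    rw [← Set.ncard_coe_finset, h1, Set.ncard_image_of_injective _ Subtype.val_injective]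
  rw [h3, h2, Set.ncard_image_of_injective]
  exact Subtype.val_injective.comp e.injective

theorem tree_of_sizes (hT : T.IsTree) {u v x y : V} (e₁ : Gd T u ≃g Gd H x)
    (e₂ : Gd T v ≃g Gd H y) (hd : (T.neighborSet u).ncard = (H.neighborSet x).ncard)
    (hs : ∀ D ∈ ch (code T u), ∀ E ∈ ch (code T v), size D ≠ size E) : H.IsTree := by
  classical
  have hF : Fintype V := Fintype.ofFinite V
  have hN : Nonempty V := ⟨x⟩
  have hcard : Nat.card H.edgeSet + 1 = Nat.card V := by
    rw [← edges_eq e₁ hd]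
    exact (SimpleGraph.isTree_iff_connected_and_card.1 hT).2
  rw [SimpleGraph.isTree_iff_connected_and_card]
  refine ⟨?_, hcard⟩
  by_contra hcon
  have h1 : ∀ z, H.Reachable x z ∨ H.Reachable y z := by
    intro z
    by_contra hz
    rw [not_or] at hz
    obtain ⟨D, hD, hD2⟩ := comp_size hT e₁ hz.1
    obtain ⟨E, hE, hE2⟩ := comp_size hT e₂ hz.2
    exact hs D hD E hE (by rw [hD2, hE2])
  have hxy : ¬ H.Reachable x y := by
    intro hxy
    apply hcon
    have h2 : ∀ z, H.Reachable x z := fun z => (h1 z).elim id (fun h => hxy.trans h)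
    exact ⟨fun a b => (h2 a).symm.trans (h2 b)⟩
  have hxa : (Gd H x).IsAcyclic := (SimpleGraph.Iso.isAcyclic_iff e₁).1 (hT.isAcyclic.induce _)
  have hya : (Gd H y).IsAcyclic := (SimpleGraph.Iso.isAcyclic_iff e₂).1 (hT.isAcyclic.induce _)
  have hcyc : ∀ (p a : V) (c : H.Walk a a), (Gd H p).IsAcyclic → c.IsCycle → p ∉ c.support →
      False := by
    intro p a c hp hc hpc
    have hall : ∀ z ∈ c.support, z ∈ ({p}ᶜ : Set V) := by
      intro z hz he
      rw [Set.mem_singleton_iff] at he
      exact hpc (he ▸ hz)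
    apply hp (c.induce _ hall)
    rw [← SimpleGraph.Walk.isCycle_map_iff_of_injective
      (f := (SimpleGraph.Embedding.induce ({p}ᶜ : Set V) : Gd H p ↪g H).toHom)
      (SimpleGraph.Embedding.induce (G := H) ({p}ᶜ : Set V)).injective, SimpleGraph.Walk.map_induce]
    exact hc
  have hacyc : H.IsAcyclic := by
    intro a c hc
    rcases h1 a with ha | ha
    · refine hcyc y a c hya hc (fun hy => hxy ?_)
      exact ha.trans (c.takeUntil y hy).reachable
    · refine hcyc x a c hxa hc (fun hx => hxy ?_)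
      exact (ha.trans (c.takeUntil x hx).reachable).symm
  have hne : x ≠ y := by rintro rfl; exact hxy (SimpleGraph.Reachable.refl _)
  have h2 : (H ⊔ SimpleGraph.edge x y).IsAcyclic :=
    SimpleGraph.IsAcyclic.sup_edge_of_not_reachable hxy hacyc
  have hxy2 : (H ⊔ SimpleGraph.edge x y).Reachable x y := by
    apply SimpleGraph.Adj.reachable
    rw [SimpleGraph.sup_adj, SimpleGraph.edge_adj]
    exact Or.inr ⟨Or.inl ⟨rfl, rfl⟩, hne⟩
  have h3 : ∀ z, (H ⊔ SimpleGraph.edge x y).Reachable x z := by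
    intro z
    rcases h1 z with hz | hz
    · exact hz.mono le_sup_left
    · exact hxy2.trans (hz.mono le_sup_left)
  have h4 : (H ⊔ SimpleGraph.edge x y).IsTree :=
    ⟨⟨fun a b => (h3 a).symm.trans (h3 b)⟩, h2⟩
  have h5 := (SimpleGraph.isTree_iff_connected_and_card.1 h4).2
  have h6 : (H ⊔ SimpleGraph.edge x y).edgeFinset.card = H.edgeFinset.card + 1 :=
    H.card_edgeFinset_sup_edge (fun h => hxy h.reachable) hne
  rw [Nat.card_eq_fintype_card, ← SimpleGraph.edgeFinset_card, h6, ← hcard,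
    Nat.card_eq_fintype_card, ← SimpleGraph.edgeFinset_card] at h5
  omega

end trees

/-! ### The two cases -/

section cases

variable [Finite V] {T : SimpleGraph V}

/-- the conclusion of the problem for the tree `T` -/
def Drn2 (T : SimpleGraph V) : Prop :=
  ∃ u v : V, u ≠ v ∧
    ∀ H : SimpleGraph V, ∀ x y : V, x ≠ y →
      Nonempty (T.induce ({u}ᶜ : Set V) ≃g H.induce ({x}ᶜ : Set V)) →
      (T.neighborSet u).ncard = (H.neighborSet x).ncard →
      Nonempty (T.induce ({v}ᶜ : Set V) ≃g H.induce ({y}ᶜ : Set V)) →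
      (T.neighborSet v).ncard = (H.neighborSet y).ncard →
      Nonempty (T ≃g H)

theorem ucard_code {G : SimpleGraph V} (hG : G.IsTree) {r : V} {Y : RT}
    (h : UCard (code G r) Y) : ∃ (u a : V) (ha : a ≠ u), IsLeaf G u ∧
      UI (code (Gd G u) (vx ha)) Y := by
  obtain ⟨X', Y', h1, h2, h3⟩ := h
  obtain ⟨a, _, rfl⟩ := UI_code hG.isAcyclic h1
  obtain ⟨u, ha, hu, rfl⟩ := code_del_exists hG.isAcyclic h2
  exact ⟨u, a, ha, hu, h3⟩

theorem case_LL (hT : T.IsTree) (r : V) (h : LLgood (code T r)) : Drn2 T := by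
  classical
  have hF : Fintype V := Fintype.ofFinite V
  obtain ⟨Y₁, Y₂, h1, h2, hne, hdet⟩ := h
  obtain ⟨u, a, ha, hu, hua⟩ := ucard_code hT h1
  obtain ⟨v, b, hb, hv, hvb⟩ := ucard_code hT h2
  refine ⟨u, v, ?_, ?_⟩
  · rintro rfl
    apply hne
    have hcon : (Gd T u).Connected := by
      apply hT.connected.induce_compl_singleton_of_degree_eq_one
      rw [isLeaf_iff, Set.ncard_eq_toFinset_card'] at hu
      exact hu
    exact (UI.symm hua).trans ((code_UI (hT.isAcyclic.induce _)
      (hcon.preconnected _ _)).trans hvb)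
  · rintro H x y _ ⟨e₁⟩ hd₁ ⟨e₂⟩ hd₂
    have hH : H.IsTree := tree_of_leaf hT e₁ hd₁ hu
    have hx : IsLeaf H x := by
      rw [isLeaf_iff] at hu ⊢
      rw [← hd₁, hu]
    have hy : IsLeaf H y := by
      rw [isLeaf_iff] at hv ⊢
      rw [← hd₂, hv]
    have key : ∀ (u x a : V) (ha : a ≠ u) (Y : RT) (e : Gd T u ≃g Gd H x), IsLeaf H x →
        UI (code (Gd T u) (vx ha)) Y → ∀ c : V, UCard (code H c) Y := by
      intro u x a ha Y e hx hua c
      have h3 := code_of_iso (hT.isAcyclic.induce _) e (vx ha)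
      refine ⟨code H (e (vx ha) : ({x}ᶜ : Set V)), code (Gd H x) (e (vx ha)), ?_, ?_, ?_⟩
      · exact code_UI hH.isAcyclic (hH.connected.preconnected _ _)
      · exact code_del hH.isAcyclic hx (e (vx ha)).2 (hH.connected.preconnected _ _)
      · rw [h3]; exact hua
    have h3 := hdet (code H x) (key u x a ha Y₁ e₁ hx hua x) (key v y b hb Y₂ e₂ hy hvb x)
    obtain ⟨w, _, hw⟩ := UI_code hH.isAcyclic h3
    exact iso_of_code hT hH hw

theorem case_NL (hT : T.IsTree) (hV : 2 ≤ Nat.card V) (r : V) (h : NLgood (code T r)) :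
    Drn2 T := by
  classical
  obtain ⟨X₁, X₂, h1, h2, hs, hdet⟩ := h
  obtain ⟨u, _, rfl⟩ := UI_code hT.isAcyclic h1
  obtain ⟨v, _, rfl⟩ := UI_code hT.isAcyclic h2
  refine ⟨u, v, ?_, ?_⟩
  · rintro rfl
    have h3 : ch (code T u) = 0 := by
      rw [Multiset.eq_zero_iff_forall_notMem]
      intro D hD
      exact hs D hD D hD rfl
    have h4 := size_code hT u
    rw [size_eq, h3] at h4
    simp at h4
    omega
  · rintro H x y _ ⟨e₁⟩ hd₁ ⟨e₂⟩ hd₂
    have hH : H.IsTree := tree_of_sizes hT e₁ e₂ hd₁ hs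
    have h3 := hdet (code H x) (code H y) (code_UI hH.isAcyclic (hH.connected.preconnected _ _))
      (rel_branches hT hH e₁ hd₁) (rel_branches hT hH e₂ hd₂)
    obtain ⟨w, _, hw⟩ := UI_code hH.isAcyclic h3
    exact iso_of_code hT hH hw

end cases

/-- the whole problem follows from the statement on rooted tree types -/
theorem bridge (h : ∃ N : ℕ, ∀ X : RT, N ≤ size X → LLgood X ∨ NLgood X) :
    ∃ N : ℕ, ∀ n : ℕ, N ≤ n → ∀ T : SimpleGraph (Fin n), T.IsTree →
      ∃ u v : Fin n, u ≠ v ∧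
        ∀ H : SimpleGraph (Fin n), ∀ x y : Fin n, x ≠ y →
          Nonempty (T.induce ({u}ᶜ : Set (Fin n)) ≃g H.induce ({x}ᶜ : Set (Fin n))) →
          (T.neighborSet u).ncard = (H.neighborSet x).ncard →
          Nonempty (T.induce ({v}ᶜ : Set (Fin n)) ≃g H.induce ({y}ᶜ : Set (Fin n))) →
          (T.neighborSet v).ncard = (H.neighborSet y).ncard →
          Nonempty (T ≃g H) := by
  obtain ⟨N, hN⟩ := h
  refine ⟨max N 2, fun n hn T hT => ?_⟩
  have h1 : N ≤ n := le_trans (le_max_left _ _) hn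
  have h2 : 2 ≤ n := le_trans (le_max_right _ _) hn
  let r : Fin n := ⟨0, by omega⟩
  have hsize : size (code T r) = n := by rw [size_code hT r, Nat.card_eq_fintype_card,
    Fintype.card_fin]
  rcases hN (code T r) (by rw [hsize]; exact h1) with h3 | h3
  · exact case_LL hT r h3
  · exact case_NL hT (by rw [Nat.card_eq_fintype_card, Fintype.card_fin]; exact h2) r h3

end Pool.Agent.Helper40K9.Drn
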