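import Pool.Agent.Helper13K9.Drn.Tasks

/-!
# Codes of rooted trees in graphs (project DRN, bridge part 1)

For a finite acyclic graph `G` and adjacent vertices `p`, `v` the type `br G p v : RT` is the rooted
tree hanging at `v` away from `p`, and `code G v` is the component of `v` rooted at `v`.
-/

set_option autoImplicit false

namespace Pool.Agent.Helper40K9.Drn

open Pool.Agent.Helper13K9.Drn

universe uu vv

section basics

variable {V : Type uu} (G : SimpleGraph V)

/-- vertices reachable from `v` avoiding `p` -/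
def Bs (p v : V) : Set V := {z | ∃ q : G.Walk v z, p ∉ q.support}

variable {G}

theorem Bs.self {p v : V} (h : p ≠ v) : v ∈ Bs G p v :=
  ⟨SimpleGraph.Walk.nil, by simpa using h⟩

theorem Bs.not_mem {p v : V} : p ∉ Bs G p v := fun ⟨q, hq⟩ => hq q.end_mem_support

theorem Bs.trans {p v z z' : V} (h : z ∈ Bs G p v) (h' : z' ∈ Bs G p z) : z' ∈ Bs G p v := by
  obtain ⟨q, hq⟩ := h
  obtain ⟨q', hq'⟩ := h'
  exact ⟨q.append q', by rw [SimpleGraph.Walk.mem_support_append_iff]; tauto⟩

theorem Bs.symm {p v z : V} (h : z ∈ Bs G p v) : v ∈ Bs G p z := by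
  obtain ⟨q, hq⟩ := h
  exact ⟨q.reverse, by rwa [SimpleGraph.Walk.support_reverse, List.mem_reverse]⟩

theorem Bs.adj {p z z' : V} (h : G.Adj z z') (hz : p ≠ z) (hz' : p ≠ z') : z' ∈ Bs G p z :=
  ⟨SimpleGraph.Walk.cons h SimpleGraph.Walk.nil, by simp [hz, hz']⟩

/-- two different neighbours of `v` are not joined by a walk avoiding `v` -/
theorem Bs.key (hG : G.IsAcyclic) {v w w' : V} (h : G.Adj v w) (h' : G.Adj v w')
    (hw : w' ∈ Bs G v w) : w = w' := by
  classical
  by_contra hne
  obtain ⟨q, hq⟩ := hw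
  have hp : q.bypass.IsPath := q.bypass_isPath
  have hq' : v ∉ q.bypass.support := fun hh => hq (q.support_bypass_subset_support hh)
  let r : G.Walk w w' := SimpleGraph.Walk.cons h.symm (SimpleGraph.Walk.cons h'
    SimpleGraph.Walk.nil)
  have hr : r.IsPath := by
    simp only [r, SimpleGraph.Walk.cons_isPath_iff, SimpleGraph.Walk.support_cons,
      SimpleGraph.Walk.support_nil]
    simp [h.ne', h'.ne, hne]
  have heq := (hG.subsingleton_path w w').elim ⟨q.bypass, hp⟩ ⟨r, hr⟩
  have : q.bypass = r := congrArg Subtype.val heq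
  apply hq'
  rw [this]
  simp [r]

theorem Bs.disj (hG : G.IsAcyclic) {v w w' z : V} (h : G.Adj v w) (h' : G.Adj v w')
    (hz : z ∈ Bs G v w) (hz' : z ∈ Bs G v w') : w = w' :=
  Bs.key hG h h' (Bs.trans hz (Bs.symm hz'))

theorem Bs.sub (hG : G.IsAcyclic) {p v w : V} (h : G.Adj p v) (h' : G.Adj v w) (hw : w ≠ p) :
    Bs G v w ⊆ Bs G p v := by
  classical
  rintro z ⟨q, hq⟩
  refine ⟨SimpleGraph.Walk.cons h' q, ?_⟩
  rw [SimpleGraph.Walk.support_cons, List.mem_cons, not_or]
  refine ⟨h.ne, fun hp => hw ?_⟩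
  have h1 : p ∈ Bs G v w :=
    ⟨q.takeUntil p hp, fun hh => hq (q.support_takeUntil_subset_support hp hh)⟩
  exact Bs.key hG h' h.symm h1

theorem Bs.step {v z : V} (h : G.Reachable v z) (hz : z ≠ v) :
    ∃ w, G.Adj v w ∧ z ∈ Bs G v w := by
  classical
  obtain ⟨q, hq⟩ := h.exists_isPath
  cases q with
  | nil => exact absurd rfl hz
  | cons h q' =>
    rw [SimpleGraph.Walk.cons_isPath_iff] at hq
    exact ⟨_, h, q', hq.2⟩

theorem Bs.cases {p v z : V} (h : z ∈ Bs G p v) (hz : z ≠ v) :
    ∃ w, G.Adj v w ∧ w ≠ p ∧ z ∈ Bs G v w := by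
  classical
  obtain ⟨q, hq⟩ := h
  have hp : q.bypass.IsPath := q.bypass_isPath
  have hq' : p ∉ q.bypass.support := fun hh => hq (q.support_bypass_subset_support hh)
  generalize q.bypass = q1 at hp hq'
  cases q1 with
  | nil => exact absurd rfl hz
  | cons h q' =>
    rw [SimpleGraph.Walk.cons_isPath_iff] at hp
    refine ⟨_, h, ?_, q', hp.2⟩
    rintro rfl
    apply hq'
    rw [SimpleGraph.Walk.support_cons]
    exact List.mem_cons_of_mem _ q'.start_mem_support

theorem Bs.reachable {p v z : V} (h : z ∈ Bs G p v) : G.Reachable v z := by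
  obtain ⟨q, _⟩ := h
  exact ⟨q⟩

end basics

section codes

variable {V : Type uu} [Finite V] (G : SimpleGraph V)

/-- the neighbours as a finset -/
noncomputable def nb (v : V) : Finset V := (Set.toFinite (G.neighborSet v)).toFinset

@[simp] theorem mem_nb {G : SimpleGraph V} {v w : V} : w ∈ nb G v ↔ G.Adj v w := by
  simp [nb]

theorem card_nb {G : SimpleGraph V} {v : V} : (nb G v).card = (G.neighborSet v).ncard :=
  (Set.ncard_eq_toFinset_card _ _).symm

/-- `Bs` as a finset -/
noncomputable def BF (p v : V) : Finset V := (Set.toFinite (Bs G p v)).toFinset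

theorem mem_BF {G : SimpleGraph V} {p v z : V} : z ∈ BF G p v ↔ z ∈ Bs G p v := by
  simp [BF]

open Classical in
/-- the branch at `v` away from `p`, with fuel -/
noncomputable def brF : ℕ → V → V → RT
  | 0, _, _ => leaf
  | k + 1, p, v => node (((nb G v).erase p).val.map (brF k v))

/-- the branch at `v` away from `p` -/
noncomputable def br (p v : V) : RT := brF G (Nat.card V) p v

/-- the component of `v` rooted at `v` -/
noncomputable def code (v : V) : RT := node ((nb G v).val.map (br G v))

variable {G}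

theorem BF_lt (hG : G.IsAcyclic) {p v w : V} (h : G.Adj p v) (h' : G.Adj v w) (hw : w ≠ p) :
    (BF G v w).card < (BF G p v).card := by
  apply Finset.card_lt_card
  rw [Finset.ssubset_iff_of_subset]
  · exact ⟨v, mem_BF.2 (Bs.self h.ne), fun hh => Bs.not_mem (mem_BF.1 hh)⟩
  · intro z hz
    exact mem_BF.2 (Bs.sub hG h h' hw (mem_BF.1 hz))

theorem brF_stable (hG : G.IsAcyclic) (k : ℕ) : ∀ p v : V, G.Adj p v → (BF G p v).card ≤ k →
    brF G k p v = brF G (k + 1) p v := by
  classical
  induction k with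
  | zero =>
    intro p v h hk
    exfalso
    have : v ∈ BF G p v := mem_BF.2 (Bs.self h.ne)
    have := Finset.card_pos.2 ⟨v, this⟩
    omega
  | succ k ih =>
    intro p v h hk
    rw [brF, brF]
    congr 1
    apply Multiset.map_congr rfl
    intro w hw
    have hw' : w ∈ (nb G v).erase p := hw
    rw [Finset.mem_erase, mem_nb] at hw'
    apply ih v w hw'.2
    have := BF_lt hG h hw'.2 hw'.1
    omega

open Classical in
theorem br_eq (hG : G.IsAcyclic) {p v : V} (h : G.Adj p v) :
    br G p v = node (((nb G v).erase p).val.map (br G v)) := by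
  have : Nonempty V := ⟨v⟩
  obtain ⟨m, hm⟩ : ∃ m, Nat.card V = m + 1 := ⟨Nat.card V - 1, by
    have := Nat.card_pos (α := V); omega⟩
  unfold br
  rw [hm]
  rw [brF]
  congr 1
  apply Multiset.map_congr rfl
  intro w hw
  have hw' : w ∈ (nb G v).erase p := hw
  rw [Finset.mem_erase, mem_nb] at hw'
  apply brF_stable hG _ _ _ hw'.2
  have h1 : (BF G v w).card < Nat.card V := by
    have : Fintype V := Fintype.ofFinite V
    rw [Nat.card_eq_fintype_card]
    exact Finset.card_lt_univ_of_notMem (x := v) (fun hh => Bs.not_mem (mem_BF.1 hh))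
  omega

/-- induction on branches -/
theorem br_ind (hG : G.IsAcyclic) {P : V → V → Prop}
    (H : ∀ p v, G.Adj p v → (∀ w, G.Adj v w → w ≠ p → P v w) → P p v) :
    ∀ p v, G.Adj p v → P p v := by
  have key : ∀ k : ℕ, ∀ p v, G.Adj p v → (BF G p v).card ≤ k → P p v := by
    intro k
    induction k with
    | zero =>
      intro p v h hk
      exfalso
      have : v ∈ BF G p v := mem_BF.2 (Bs.self h.ne)
      have := Finset.card_pos.2 ⟨v, this⟩
      omega
    | succ k ih =>
      intro p v hpv hk
      apply H p v hpv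
      intro w hvw hw
      apply ih v w hvw
      have := BF_lt hG hpv hvw hw
      omega
  intro p v hpv
  exact key _ p v hpv le_rfl

open Classical in
theorem nb_cons {v w : V} (h : G.Adj v w) : (nb G v).val = w ::ₘ ((nb G v).erase w).val := by
  rw [Finset.erase_val, Multiset.cons_erase]
  exact mem_nb.2 h

open Classical in
theorem ch_br (hG : G.IsAcyclic) {p v : V} (h : G.Adj p v) :
    ch (br G p v) = ((nb G v).erase p).val.map (br G v) := by
  rw [br_eq hG h, ch_node]

open Classical in
theorem code_cons (hG : G.IsAcyclic) {v w : V} (h : G.Adj v w) :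
    code G v = node (br G v w ::ₘ ch (br G w v)) := by
  rw [code, nb_cons h, Multiset.map_cons, ch_br hG h.symm]

theorem code_re (hG : G.IsAcyclic) {v w : V} (h : G.Adj v w) : Re (code G v) (code G w) := by
  rw [code_cons hG h, code_cons hG h.symm]
  have := Re.mk (br G v w) (ch (br G w v))
  rwa [node_ch] at this

theorem code_UI (hG : G.IsAcyclic) {v w : V} (h : G.Reachable v w) :
    UI (code G v) (code G w) := by
  obtain ⟨q⟩ := h
  induction q with
  | nil => exact UI.refl _
  | cons h _ ih => exact UI.trans (Relation.ReflTransGen.single (code_re hG h)) ih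

open Classical in
theorem re_code (hG : G.IsAcyclic) {v : V} {X : RT} (h : Re (code G v) X) :
    ∃ w, G.Adj v w ∧ X = code G w := by
  generalize hc : code G v = Y at h
  cases h with
  | mk D M =>
    rw [code, node_inj, ← Multiset.map_eq_cons] at hc
    obtain ⟨w, hw, hD, hM⟩ := hc
    have hw' : w ∈ nb G v := hw
    rw [mem_nb] at hw'
    refine ⟨w, hw', ?_⟩
    rw [code_cons hG hw'.symm, br_eq hG hw'.symm, hD]
    rw [← hM, Finset.erase_val]

theorem UI_code (hG : G.IsAcyclic) {v : V} {X : RT} (h : UI (code G v) X) :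
    ∃ w, G.Reachable v w ∧ X = code G w := by
  unfold UI at h
  induction h with
  | refl => exact ⟨v, SimpleGraph.Reachable.refl _, rfl⟩
  | tail _ h2 ih =>
    obtain ⟨w, hw, rfl⟩ := ih
    obtain ⟨w', hw', rfl⟩ := re_code hG h2
    exact ⟨w', hw.trans hw'.reachable, rfl⟩

/-! ### Sizes -/

open Classical in
/-- `v` and the branches at the vertices in `C` -/
noncomputable def UF (G : SimpleGraph V) (v : V) (C : Finset V) : Finset V :=
  insert v (C.biUnion (BF G v))

theorem mem_UF {v : V} {C : Finset V} {z : V} :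
    z ∈ UF G v C ↔ z = v ∨ ∃ w ∈ C, z ∈ Bs G v w := by
  classical
  simp [UF, mem_BF]

theorem card_UF (hG : G.IsAcyclic) {v : V} {C : Finset V} (hC : ∀ w ∈ C, G.Adj v w) :
    (UF G v C).card = 1 + ∑ w ∈ C, (BF G v w).card := by
  classical
  rw [UF, Finset.card_insert_of_notMem, Finset.card_biUnion, add_comm]
  · intro w hw w' hw' hne
    refine Finset.disjoint_left.2 ?_
    intro z hz hz'
    exact hne (Bs.disj hG (hC w hw) (hC w' hw') (mem_BF.1 hz) (mem_BF.1 hz'))
  · rw [Finset.mem_biUnion]
    rintro ⟨w, _, hw⟩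
    exact Bs.not_mem (mem_BF.1 hw)

open Classical in
theorem BF_eq_UF (hG : G.IsAcyclic) {p v : V} (h : G.Adj p v) :
    BF G p v = UF G v ((nb G v).erase p) := by
  ext z
  rw [mem_BF, mem_UF]
  constructor
  · intro hz
    by_cases hzv : z = v
    · exact Or.inl hzv
    · obtain ⟨w, h1, h2, h3⟩ := Bs.cases hz hzv
      exact Or.inr ⟨w, by simp [h1, h2], h3⟩
  · rintro (rfl | ⟨w, hw, hz⟩)
    · exact Bs.self h.ne
    · rw [Finset.mem_erase, mem_nb] at hw
      exact Bs.sub hG h hw.2 hw.1 hz

theorem size_br (hG : G.IsAcyclic) : ∀ p v : V, G.Adj p v → size (br G p v) = (BF G p v).card := by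
  classical
  refine br_ind hG (P := fun p v => size (br G p v) = (BF G p v).card) ?_
  intro p v h ih
  rw [br_eq hG h, size_node, BF_eq_UF hG h, card_UF hG (fun w hw => by
    rw [Finset.mem_erase, mem_nb] at hw; exact hw.2), Multiset.map_map]
  congr 1
  rw [Finset.sum]
  congr 1
  apply Multiset.map_congr rfl
  intro w hw
  have hw' : w ∈ (nb G v).erase p := hw
  rw [Finset.mem_erase, mem_nb] at hw'
  exact ih w hw'.2 hw'.1

theorem UF_univ (hG : G.Connected) (v : V) (z : V) : z ∈ UF G v (nb G v) := by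
  rw [mem_UF]
  by_cases hzv : z = v
  · exact Or.inl hzv
  · obtain ⟨w, h1, h2⟩ := Bs.step (hG.preconnected v z) hzv
    exact Or.inr ⟨w, mem_nb.2 h1, h2⟩

theorem size_code (hG : G.IsTree) (v : V) : size (code G v) = Nat.card V := by
  classical
  have : Fintype V := Fintype.ofFinite V
  have h1 : UF G v (nb G v) = Finset.univ := by
    ext z; simp only [Finset.mem_univ, iff_true]; exact UF_univ hG.connected v z
  rw [code, size_node, Nat.card_eq_fintype_card, ← Finset.card_univ, ← h1,
    card_UF hG.isAcyclic (fun w hw => mem_nb.1 hw), Multiset.map_map]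
  congr 1
  rw [Finset.sum]
  congr 1
  apply Multiset.map_congr rfl
  intro w hw
  have hw' : w ∈ nb G v := hw
  exact size_br hG.isAcyclic v w (mem_nb.1 hw')

end codes

end Pool.Agent.Helper40K9.Drn
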