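import Pool.Agent.Helper40K9.Drn.Iso

/-!
# Codes of vertex-deleted subgraphs (project DRN, bridge part 2)
-/

set_option autoImplicit false

namespace Pool.Agent.Helper40K9.Drn

open Pool.Agent.Helper13K9.Drn

universe uu vv

variable {V : Type uu} [Finite V] {G : SimpleGraph V}

/-- deletion of a vertex -/
abbrev Gd (G : SimpleGraph V) (u : V) : SimpleGraph ({u}ᶜ : Set V) := G.induce ({u}ᶜ : Set V)

/-- a vertex different from `u` as a vertex of `G - u` -/
def vx {u v : V} (h : v ≠ u) : ({u}ᶜ : Set V) := ⟨v, by simpa using h⟩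

omit [Finite V] in
@[simp] theorem coe_vx {u v : V} (h : v ≠ u) : (vx h : V) = v := rfl

open Classical in
/-- restriction of a finset to the complement of `u` -/
noncomputable def delC (u : V) (C : Finset V) : Finset ({u}ᶜ : Set V) :=
  C.subtype (· ∈ ({u}ᶜ : Set V))

omit [Finite V] in
theorem mem_delC {u : V} {C : Finset V} {w : ({u}ᶜ : Set V)} : w ∈ delC u C ↔ (w : V) ∈ C := by
  classical
  unfold delC
  rw [Finset.mem_subtype]

omit [Finite V] in
theorem delC_map {u : V} {C : Finset V} (hu : u ∉ C) (g : V → RT) (g' : ({u}ᶜ : Set V) → RT)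
    (h : ∀ w : ({u}ᶜ : Set V), (w : V) ∈ C → g' w = g w) :
    (delC u C).val.map g' = C.val.map g := by
  classical
  have h1 : (delC u C).map (Function.Embedding.subtype _) = C := by
    ext w
    rw [Finset.mem_map]
    constructor
    · rintro ⟨w', hw', rfl⟩
      exact mem_delC.1 hw'
    · intro hw
      have : w ∈ ({u}ᶜ : Set V) := by
        intro he
        rw [Set.mem_singleton_iff] at he
        exact hu (he ▸ hw)
      exact ⟨⟨w, this⟩, mem_delC.2 hw, rfl⟩
  conv_rhs => rw [← h1]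
  rw [Finset.map_val, Multiset.map_map]
  apply Multiset.map_congr rfl
  intro w hw
  exact h w (mem_delC.1 hw)

theorem nb_Gd {u : V} (v : ({u}ᶜ : Set V)) : nb (Gd G u) v = delC u (nb G v) := by
  ext w
  rw [mem_nb, mem_delC, mem_nb]
  rfl

theorem nb_Gd_erase {u : V} {_ : DecidableEq V} {_ : DecidableEq ({u}ᶜ : Set V)}
    (v p : ({u}ᶜ : Set V)) : (nb (Gd G u) v).erase p = delC u ((nb G v).erase p) := by
  ext w
  rw [Finset.mem_erase, mem_nb, mem_delC, Finset.mem_erase, mem_nb, ne_eq, Subtype.ext_iff]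
  rfl

theorem br_Gd (hG : G.IsAcyclic) {u : V} : ∀ p v : ({u}ᶜ : Set V), (Gd G u).Adj p v →
    u ∉ Bs G (p : V) v → br (Gd G u) p v = br G p v := by
  classical
  have hGd : (Gd G u).IsAcyclic := hG.induce _
  refine br_ind hGd (P := fun p v => u ∉ Bs G (p : V) v → br (Gd G u) p v = br G p v) ?_
  intro p v hpv ih hu
  have hpv' : G.Adj (p : V) v := hpv
  rw [br_eq hGd hpv, br_eq hG hpv', nb_Gd_erase, delC_map (g := br G v)]
  · intro hh
    rw [Finset.mem_erase, mem_nb] at hh
    exact hu (Bs.sub hG hpv' hh.2 hh.1 (Bs.self hh.2.ne))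
  · intro w hw
    rw [Finset.mem_erase, mem_nb] at hw
    exact ih w hw.2 (fun he => hw.1 (congrArg Subtype.val he))
      (fun hh => hu (Bs.sub hG hpv' hw.2 hw.1 hh))

theorem delC_br (hG : G.IsAcyclic) {u : V} {C : Finset V} (v : ({u}ᶜ : Set V))
    (hC : ∀ w ∈ C, G.Adj v w) (hu : ∀ w ∈ C, u ∉ Bs G (v : V) w) :
    (delC u C).val.map (br (Gd G u) v) = C.val.map (br G v) := by
  apply delC_map
  · intro hh
    exact hu u hh (Bs.self (hC u hh).ne)
  · intro w hw
    exact br_Gd hG v w (hC w hw) (hu w hw)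

/-- the branches at a vertex `u` are the components of `G - u` -/
theorem br_eq_code (hG : G.IsAcyclic) {u : V} (w : ({u}ᶜ : Set V)) (h : G.Adj u w) :
    br G u w = code (Gd G u) w := by
  classical
  rw [br_eq hG h, code, nb_Gd]
  have h1 : delC u (nb G w) = delC u ((nb G w).erase u) := by
    ext z
    rw [mem_delC, mem_delC, Finset.mem_erase]
    constructor
    · intro hz
      exact ⟨z.2, hz⟩
    · exact fun hz => hz.2
  rw [h1, delC_br hG w]
  · intro z hz
    rw [Finset.mem_erase, mem_nb] at hz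
    exact hz.2
  · intro z hz hh
    rw [Finset.mem_erase, mem_nb] at hz
    exact hz.1 (Bs.key hG hz.2 h.symm hh)

/-! ### Leaves -/

/-- vertices of degree one -/
def IsLeaf (G : SimpleGraph V) (u : V) : Prop := ∃ t, ∀ w, G.Adj u w ↔ w = t

omit [Finite V] in
theorem isLeaf_iff {u : V} : IsLeaf G u ↔ (G.neighborSet u).ncard = 1 := by
  rw [Set.ncard_eq_one]
  constructor
  · rintro ⟨t, ht⟩
    exact ⟨t, by ext w; exact ht w⟩
  · rintro ⟨t, ht⟩
    refine ⟨t, fun w => ?_⟩
    have : w ∈ G.neighborSet u ↔ w ∈ ({t} : Set V) := by rw [ht]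
    exact this

theorem br_eq_leaf (hG : G.IsAcyclic) {v u : V} (h : G.Adj v u) : br G v u = leaf ↔ IsLeaf G u := by
  classical
  rw [br_eq hG h, leaf, node_inj, Multiset.map_eq_zero, Finset.val_eq_zero]
  constructor
  · intro he
    refine ⟨v, fun w => ⟨fun hw => ?_, fun hw => hw ▸ h.symm⟩⟩
    by_contra hne
    have : w ∈ (nb G u).erase v := by
      rw [Finset.mem_erase, mem_nb]
      exact ⟨hne, hw⟩
    rw [he] at this
    exact Finset.notMem_empty _ this
  · rintro ⟨t, ht⟩
    have h1 : v = t := (ht v).1 h.symm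
    ext w
    rw [Finset.mem_erase, mem_nb, ht w, h1]
    simp

open Classical in
/-- one step of leaf deletion -/
theorem del_step (hG : G.IsAcyclic) {u : V} {C : Finset V} {v : V} (hv : v ≠ u)
    (hC : ∀ w ∈ C, G.Adj v w) {w0 : V} (hw0 : w0 ∈ C) (hu : u ∈ Bs G v w0) :
    (w0 = u → (delC u C).val.map (br (Gd G u) (vx hv)) = (C.val.erase w0).map (br G v)) ∧
      (∀ h0 : w0 ≠ u, (delC u C).val.map (br (Gd G u) (vx hv)) =
        br (Gd G u) (vx hv) (vx h0) ::ₘ (C.val.erase w0).map (br G v)) := by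
  classical
  have key : (delC u (C.erase w0)).val.map (br (Gd G u) (vx hv)) =
      (C.val.erase w0).map (br G v) := by
    rw [delC_br hG (vx hv), Finset.erase_val, coe_vx]
    · intro w hw
      exact hC w (Finset.mem_of_mem_erase hw)
    · intro w hw hh
      rw [Finset.mem_erase] at hw
      exact hw.1 (Bs.disj hG (hC w hw.2) (hC w0 hw0) hh hu)
  constructor
  · intro h0
    rw [← key]
    congr 2
    ext z
    rw [mem_delC, mem_delC, Finset.mem_erase, h0]
    constructor
    · intro hz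
      exact ⟨z.2, hz⟩
    · exact fun hz => hz.2
  · intro h0
    rw [← key]
    have h1 : delC u C = insert (vx h0) (delC u (C.erase w0)) := by
      ext z
      rw [Finset.mem_insert, mem_delC, mem_delC, Finset.mem_erase, Subtype.ext_iff]
      constructor
      · intro hz
        by_cases hz0 : (z : V) = w0
        · exact Or.inl hz0
        · exact Or.inr ⟨hz0, hz⟩
      · rintro (hz | hz)
        · have : (z : V) = w0 := hz
          rw [this]
          exact hw0
        · exact hz.2
    rw [h1, Finset.insert_val_of_notMem, Multiset.map_cons]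
    rw [mem_delC]
    exact Finset.notMem_erase _ _

theorem br_del (hG : G.IsAcyclic) {u : V} (hleaf : IsLeaf G u) : ∀ p v : V, G.Adj p v →
    ∀ (hp : p ≠ u) (hv : v ≠ u), u ∈ Bs G p v →
    Del leaf (br G p v) (br (Gd G u) (vx hp) (vx hv)) := by
  classical
  refine br_ind hG (P := fun p v => ∀ (hp : p ≠ u) (hv : v ≠ u), u ∈ Bs G p v →
    Del leaf (br G p v) (br (Gd G u) (vx hp) (vx hv))) ?_
  intro p v hpv ih hp hv hu
  obtain ⟨w0, h1, h2, h3⟩ := Bs.cases hu (Ne.symm hv)
  have hpv' : (Gd G u).Adj (vx hp) (vx hv) := hpv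
  have hw0 : w0 ∈ (nb G v).erase p := by rw [Finset.mem_erase, mem_nb]; exact ⟨h2, h1⟩
  have hs := del_step hG (C := (nb G v).erase p) hv (fun w hw => by
    rw [Finset.mem_erase, mem_nb] at hw; exact hw.2) hw0 h3
  rw [br_eq (hG.induce _) hpv', nb_Gd_erase, br_eq hG hpv, coe_vx, coe_vx]
  have h4 : ((nb G v).erase p).val.map (br G v) =
      br G v w0 ::ₘ (((nb G v).erase p).val.erase w0).map (br G v) := by
    rw [← Multiset.map_cons, Multiset.cons_erase]
    exact hw0
  rw [h4]
  by_cases h0 : w0 = u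
  · rw [hs.1 h0, h0, (br_eq_leaf hG (h0 ▸ h1)).2 hleaf]
    exact Del.here _
  · rw [hs.2 h0]
    exact Del.deep _ (ih w0 h1 h2 hv h0 h3)

theorem code_del (hG : G.IsAcyclic) {u : V} (hleaf : IsLeaf G u) {v : V} (hv : v ≠ u)
    (hvu : G.Reachable v u) : Del leaf (code G v) (code (Gd G u) (vx hv)) := by
  classical
  obtain ⟨w0, h1, h3⟩ := Bs.step hvu (Ne.symm hv)
  have hw0 : w0 ∈ nb G v := mem_nb.2 h1
  have hs := del_step hG (C := nb G v) hv (fun w hw => mem_nb.1 hw) hw0 h3
  rw [code, code, nb_Gd, coe_vx]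
  have h4 : (nb G v).val.map (br G v) =
      br G v w0 ::ₘ ((nb G v).val.erase w0).map (br G v) := by
    rw [← Multiset.map_cons, Multiset.cons_erase]
    exact hw0
  rw [h4]
  by_cases h0 : w0 = u
  · rw [hs.1 h0, h0, (br_eq_leaf hG (h0 ▸ h1)).2 hleaf]
    exact Del.here _
  · rw [hs.2 h0]
    exact Del.deep _ (br_del hG hleaf v w0 h1 hv h0 h3)

/-- every leaf deletion of the code is the deletion of a leaf -/
theorem del_exists (hG : G.IsAcyclic) {X Y : RT} (h : Del leaf X Y) : ∀ (v : V) (C : Finset V),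
    (∀ w ∈ C, G.Adj v w) → node (C.val.map (br G v)) = X → ∃ (u : V) (hu : v ≠ u),
      IsLeaf G u ∧ (∃ w0 ∈ C, u ∈ Bs G v w0) ∧
        Y = node ((delC u C).val.map (br (Gd G u) (vx hu))) := by
  classical
  induction h with
  | here M =>
    intro v C hC hX
    rw [node_inj, ← Multiset.map_eq_cons] at hX
    obtain ⟨w0, hw0, hl, hM⟩ := hX
    have hw0' : w0 ∈ C := hw0
    have had := hC w0 hw0'
    refine ⟨w0, had.ne, (br_eq_leaf hG had).1 hl, ⟨w0, hw0', Bs.self had.ne⟩, ?_⟩
    have hs := (del_step hG (u := w0) (C := C) had.ne hC hw0' (Bs.self had.ne)).1 rfl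
    rw [hs, hM]
  | deep M _ ih =>
    intro v C hC hX
    rw [node_inj, ← Multiset.map_eq_cons] at hX
    obtain ⟨w0, hw0, hl, hM⟩ := hX
    have hw0' : w0 ∈ C := hw0
    have had := hC w0 hw0'
    rw [br_eq hG had] at hl
    obtain ⟨u, hu, hleaf, ⟨w1, hw1, hw1u⟩, hY⟩ := ih w0 ((nb G w0).erase v) (fun w hw => by
      rw [Finset.mem_erase, mem_nb] at hw; exact hw.2) hl
    rw [Finset.mem_erase, mem_nb] at hw1
    have hu0 : u ∈ Bs G v w0 := Bs.sub hG had hw1.2 hw1.1 hw1u
    have hvu : v ≠ u := by rintro rfl; exact Bs.not_mem hu0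
    refine ⟨u, hvu, hleaf, ⟨w0, hw0', hu0⟩, ?_⟩
    have hs := (del_step hG (u := u) (C := C) hvu hC hw0' hu0).2 hu
    rw [hs, hM, node_inj]
    congr 1
    have hadd : (Gd G u).Adj (vx hvu) (vx hu) := had
    rw [hY, br_eq (hG.induce _) hadd, nb_Gd_erase, coe_vx, coe_vx]

theorem code_del_exists (hG : G.IsAcyclic) {v : V} {Y : RT} (h : Del leaf (code G v) Y) :
    ∃ (u : V) (hu : v ≠ u), IsLeaf G u ∧ Y = code (Gd G u) (vx hu) := by
  classical
  obtain ⟨u, hu, h1, _, h3⟩ := del_exists hG h v (nb G v) (fun w hw => mem_nb.1 hw) rfl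
  refine ⟨u, hu, h1, ?_⟩
  rw [code, nb_Gd]
  exact h3

/-! ### Isomorphism invariance -/

theorem br_of_iso {V' : Type vv} [Finite V'] {G' : SimpleGraph V'} (hG : G.IsAcyclic)
    (e : G ≃g G') : ∀ p v : V, G.Adj p v → br G' (e p) (e v) = br G p v := by
  classical
  have hG' : G'.IsAcyclic := (SimpleGraph.Iso.isAcyclic_iff e).1 hG
  refine br_ind hG (P := fun p v => br G' (e p) (e v) = br G p v) ?_
  intro p v hpv ih
  have hpv' : G'.Adj (e p) (e v) := (SimpleGraph.Iso.map_adj_iff e).2 hpv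
  rw [br_eq hG hpv, br_eq hG' hpv']
  have h1 : (nb G' (e v)).erase (e p) = ((nb G v).erase p).map e.toEquiv.toEmbedding := by
    ext w
    rw [Finset.mem_erase, mem_nb, Finset.mem_map]
    constructor
    · rintro ⟨h1, h2⟩
      refine ⟨e.symm w, ?_, ?_⟩
      · rw [Finset.mem_erase, mem_nb]
        constructor
        · intro he
          apply h1
          rw [← he]
          simp
        · rw [← SimpleGraph.Iso.map_adj_iff e]
          simpa using h2
      · simp
    · rintro ⟨z, hz, rfl⟩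
      rw [Finset.mem_erase, mem_nb] at hz
      constructor
      · intro he
        exact hz.1 (e.injective he)
      · exact (SimpleGraph.Iso.map_adj_iff e).2 hz.2
  rw [h1, Finset.map_val, Multiset.map_map]
  congr 1
  apply Multiset.map_congr rfl
  intro w hw
  have hw' : w ∈ (nb G v).erase p := hw
  rw [Finset.mem_erase, mem_nb] at hw'
  exact ih w hw'.2 hw'.1

theorem code_of_iso {V' : Type vv} [Finite V'] {G' : SimpleGraph V'} (hG : G.IsAcyclic)
    (e : G ≃g G') (v : V) : code G' (e v) = code G v := by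
  classical
  have h1 : nb G' (e v) = (nb G v).map e.toEquiv.toEmbedding := by
    ext w
    rw [mem_nb, Finset.mem_map]
    constructor
    · intro h2
      refine ⟨e.symm w, ?_, ?_⟩
      · rw [mem_nb, ← SimpleGraph.Iso.map_adj_iff e]
        simpa using h2
      · simp
    · rintro ⟨z, hz, rfl⟩
      rw [mem_nb] at hz
      exact (SimpleGraph.Iso.map_adj_iff e).2 hz
  rw [code, code, h1, Finset.map_val, Multiset.map_map]
  congr 1
  apply Multiset.map_congr rfl
  intro w hw
  have hw' : w ∈ nb G v := hw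
  exact br_of_iso hG e v w (mem_nb.1 hw')

end Pool.Agent.Helper40K9.Drn
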