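import Pool.Agent.Helper40K9.Drn.Code

/-!
# Equal codes give isomorphic trees (project DRN, bridge part 1)
-/

set_option autoImplicit false

namespace Pool.Agent.Helper40K9.Drn

open Pool.Agent.Helper13K9.Drn

universe uu vv

theorem exists_matching {V : Type uu} {V' : Type vv} [Nonempty V'] (g : V → RT) (g' : V' → RT)
    (C : Finset V) : ∀ C' : Finset V', C.val.map g = C'.val.map g' →
    ∃ τ : V → V', (∀ w ∈ C, τ w ∈ C' ∧ g' (τ w) = g w) ∧ Set.InjOn τ C := by
  classical
  induction C using Finset.induction_on with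
  | empty =>
    intro C' _
    exact ⟨fun _ => Classical.arbitrary V', by simp, by simp⟩
  | insert a C ha ih =>
    intro C' h
    rw [Finset.insert_val_of_notMem ha, Multiset.map_cons] at h
    obtain ⟨a', ha', hga, hrest⟩ := (Multiset.map_eq_cons g' C'.val _ _).2 h.symm
    have hh : C.val.map g = (C'.erase a').val.map g' := by
      rw [Finset.erase_val, hrest]
    obtain ⟨τ, h1, h2⟩ := ih (C'.erase a') hh
    refine ⟨Function.update τ a a', ?_, ?_⟩
    · intro w hw
      rw [Finset.mem_insert] at hw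
      by_cases hwa : w = a
      · subst hwa
        rw [Function.update_self]
        exact ⟨ha', hga⟩
      · rw [Function.update_of_ne hwa]
        have := h1 w (hw.resolve_left hwa)
        exact ⟨Finset.mem_of_mem_erase this.1, this.2⟩
    · intro w hw w' hw' he
      rw [Finset.mem_coe, Finset.mem_insert] at hw hw'
      by_cases hwa : w = a
      · by_cases hwa' : w' = a
        · rw [hwa, hwa']
        · exfalso
          rw [hwa, Function.update_self, Function.update_of_ne hwa'] at he
          have := (h1 w' (hw'.resolve_left hwa')).1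
          rw [← he] at this
          exact Finset.notMem_erase _ _ this
      · by_cases hwa' : w' = a
        · exfalso
          rw [hwa', Function.update_self, Function.update_of_ne hwa] at he
          have := (h1 w (hw.resolve_left hwa)).1
          rw [he] at this
          exact Finset.notMem_erase _ _ this
        · rw [Function.update_of_ne hwa, Function.update_of_ne hwa'] at he
          exact h2 (hw.resolve_left hwa) (hw'.resolve_left hwa') he

variable {V : Type uu} {V' : Type vv}

/-- a partial isomorphism `S → S'` mapping `v` to `v'` -/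
structure Good (G : SimpleGraph V) (G' : SimpleGraph V') (φ : V → V') (v : V) (v' : V')
    (S : Set V) (S' : Set V') : Prop where
  root : φ v = v'
  maps : ∀ z ∈ S, φ z ∈ S'
  adj : ∀ a ∈ S, ∀ b ∈ S, (G'.Adj (φ a) (φ b) ↔ G.Adj a b)
  inj : Set.InjOn φ S

variable {G : SimpleGraph V} {G' : SimpleGraph V'}

variable [Finite V] [Finite V']

theorem glue (hG : G.IsAcyclic) (hG' : G'.IsAcyclic) {v : V} {v' : V'} {C : Finset V}
    {C' : Finset V'} (hC : ∀ w ∈ C, G.Adj v w) (hC' : ∀ w ∈ C', G'.Adj v' w)
    (h : C.val.map (br G v) = C'.val.map (br G' v'))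
    (ih : ∀ w ∈ C, ∀ w' ∈ C', br G v w = br G' v' w' → ∃ φ : V → V',
      Good G G' φ w w' (Bs G v w) (Bs G' v' w')) :
    ∃ φ : V → V', Good G G' φ v v' (UF G v C) (UF G' v' C') := by
  classical
  have : Nonempty V' := ⟨v'⟩
  obtain ⟨τ, hτ, hτi⟩ := exists_matching (br G v) (br G' v') C C' h
  have ih' : ∀ w, ∃ φ : V → V', w ∈ C → Good G G' φ w (τ w) (Bs G v w) (Bs G' v' (τ w)) := by
    intro w
    by_cases hw : w ∈ C
    · obtain ⟨φ, hφ⟩ := ih w hw (τ w) (hτ w hw).1 (hτ w hw).2.symm
      exact ⟨φ, fun _ => hφ⟩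
    · exact ⟨fun _ => v', fun h => absurd h hw⟩
  choose Φ hΦ using ih'
  -- the branch of a vertex
  have hβ : ∀ z, ∃ w, (∃ w' ∈ C, z ∈ Bs G v w') → (w ∈ C ∧ z ∈ Bs G v w) := by
    intro z
    by_cases hz : ∃ w' ∈ C, z ∈ Bs G v w'
    · obtain ⟨w, hw⟩ := hz
      exact ⟨w, fun _ => hw⟩
    · exact ⟨v, fun h => absurd h hz⟩
  choose β hβ using hβ
  have hβu : ∀ z w, w ∈ C → z ∈ Bs G v w → β z = w := by
    intro z w hw hz
    obtain ⟨h1, h2⟩ := hβ z ⟨w, hw, hz⟩
    exact Bs.disj hG (hC _ h1) (hC _ hw) h2 hz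
  let φ : V → V' := fun z => if z = v then v' else Φ (β z) z
  have hφv : φ v = v' := by simp [φ]
  have hφ : ∀ z w, w ∈ C → z ∈ Bs G v w → φ z = Φ w z := by
    intro z w hw hz
    have : z ≠ v := by rintro rfl; exact Bs.not_mem hz
    simp only [φ, if_neg this, hβu z w hw hz]
  have hφm : ∀ z w, w ∈ C → z ∈ Bs G v w → φ z ∈ Bs G' v' (τ w) := by
    intro z w hw hz
    rw [hφ z w hw hz]
    exact (hΦ w hw).maps z hz
  -- adjacency of the root to the rest
  have hadj1 : ∀ z w, w ∈ C → z ∈ Bs G v w → (G'.Adj v' (φ z) ↔ G.Adj v z) := by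
    intro z w hw hz
    constructor
    · intro had
      have h1 : τ w = φ z := Bs.key hG' (hC' _ (hτ w hw).1) had (hφm z w hw hz)
      rw [hφ z w hw hz, ← (hΦ w hw).root] at h1
      have h2 := (hΦ w hw).inj (Bs.self (hC w hw).ne) hz h1
      rw [← h2]
      exact hC w hw
    · intro had
      have h1 : w = z := Bs.key hG (hC w hw) had hz
      rw [← h1, hφ w w hw (Bs.self (hC w hw).ne), (hΦ w hw).root]
      exact hC' _ (hτ w hw).1
  refine ⟨φ, hφv, ?_, ?_, ?_⟩
  · intro z hz
    rw [Finset.mem_coe, mem_UF] at hz ⊢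
    rcases hz with rfl | ⟨w, hw, hz⟩
    · exact Or.inl hφv
    · exact Or.inr ⟨τ w, (hτ w hw).1, hφm z w hw hz⟩
  · intro a ha b hb
    rw [Finset.mem_coe, mem_UF] at ha hb
    rcases ha with rfl | ⟨w, hw, ha⟩
    · rcases hb with rfl | ⟨w', hw', hb⟩
      · simp
      · rw [hφv]
        exact hadj1 b w' hw' hb
    · rcases hb with rfl | ⟨w', hw', hb⟩
      · rw [hφv, G'.adj_comm, G.adj_comm]
        exact hadj1 a w hw ha
      · by_cases hww : w = w'
        · subst hww
          rw [hφ a w hw ha, hφ b w hw hb]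
          exact (hΦ w hw).adj a ha b hb
        · constructor
          · intro had
            exfalso
            have h1 := hφm a w hw ha
            have h2 := hφm b w' hw' hb
            have h3 : φ b ∈ Bs G' v' (φ a) := Bs.adj had
              (fun he => Bs.not_mem (he ▸ h1)) (fun he => Bs.not_mem (he ▸ h2))
            exact hww (hτi hw hw' (Bs.disj hG' (hC' _ (hτ w hw).1) (hC' _ (hτ w' hw').1)
              (Bs.trans h1 h3) h2))
          · intro had
            exfalso
            have h3 : b ∈ Bs G v a := Bs.adj had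
              (fun he => Bs.not_mem (he ▸ ha)) (fun he => Bs.not_mem (he ▸ hb))
            exact hww (Bs.disj hG (hC _ hw) (hC _ hw') (Bs.trans ha h3) hb)
  · intro a ha b hb he
    rw [Finset.mem_coe, mem_UF] at ha hb
    rcases ha with rfl | ⟨w, hw, ha⟩
    · rcases hb with rfl | ⟨w', hw', hb⟩
      · rfl
      · exfalso
        have h2 := hφm b w' hw' hb
        rw [← he, hφv] at h2
        exact Bs.not_mem h2
    · rcases hb with rfl | ⟨w', hw', hb⟩
      · exfalso
        have h2 := hφm a w hw ha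
        rw [he, hφv] at h2
        exact Bs.not_mem h2
      · have h1 := hφm a w hw ha
        have h2 := hφm b w' hw' hb
        rw [← he] at h2
        have h3 : w = w' := hτi hw hw' (Bs.disj hG' (hC' _ (hτ w hw).1) (hC' _ (hτ w' hw').1) h1 h2)
        subst h3
        rw [hφ a w hw ha, hφ b w hw hb] at he
        exact (hΦ w hw).inj ha hb he

theorem br_iso (hG : G.IsAcyclic) (hG' : G'.IsAcyclic) : ∀ p v : V, G.Adj p v → ∀ p' v' : V',
    G'.Adj p' v' → br G p v = br G' p' v' → ∃ φ : V → V',
      Good G G' φ v v' (Bs G p v) (Bs G' p' v') := by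
  classical
  refine br_ind hG (P := fun p v => ∀ p' v' : V', G'.Adj p' v' → br G p v = br G' p' v' →
    ∃ φ : V → V', Good G G' φ v v' (Bs G p v) (Bs G' p' v')) ?_
  intro p v hpv ih p' v' hpv' hbr
  rw [br_eq hG hpv, br_eq hG' hpv', node_inj] at hbr
  have hC : ∀ w ∈ (nb G v).erase p, G.Adj v w := fun w hw => by
    rw [Finset.mem_erase, mem_nb] at hw; exact hw.2
  have hC' : ∀ w ∈ (nb G' v').erase p', G'.Adj v' w := fun w hw => by
    rw [Finset.mem_erase, mem_nb] at hw; exact hw.2
  obtain ⟨φ, hφ⟩ := glue hG hG' hC hC' hbr (fun w hw w' hw' hww => by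
    rw [Finset.mem_erase, mem_nb] at hw hw'
    exact ih w hw.2 hw.1 v' w' hw'.2 hww)
  refine ⟨φ, ?_⟩
  have e1 : (UF G v ((nb G v).erase p) : Set V) = Bs G p v := by
    ext z
    rw [← BF_eq_UF hG hpv, Finset.mem_coe, mem_BF]
  have e2 : (UF G' v' ((nb G' v').erase p') : Set V') = Bs G' p' v' := by
    ext z
    rw [← BF_eq_UF hG' hpv', Finset.mem_coe, mem_BF]
  rwa [e1, e2] at hφ

/-- equal codes: isomorphic -/
theorem iso_of_code (hG : G.IsTree) (hG' : G'.IsTree) {v : V} {v' : V'}
    (h : code G v = code G' v') : Nonempty (G ≃g G') := by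
  classical
  have hh := h
  rw [code, code, node_inj] at h
  obtain ⟨φ, hφ⟩ := glue hG.isAcyclic hG'.isAcyclic (fun w hw => mem_nb.1 hw)
    (fun w hw => mem_nb.1 hw) h (fun w hw w' hw' hww =>
      br_iso hG.isAcyclic hG'.isAcyclic v w (mem_nb.1 hw) v' w' (mem_nb.1 hw') hww)
  have hin : Function.Injective φ := fun a b hab =>
    hφ.inj (Finset.mem_coe.2 (UF_univ hG.connected v a))
      (Finset.mem_coe.2 (UF_univ hG.connected v b)) hab
  have hcard : Nat.card V = Nat.card V' := by
    rw [← size_code hG v, hh, size_code hG' v']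
  have hbij : Function.Bijective φ := by
    have : Fintype V := Fintype.ofFinite V
    have : Fintype V' := Fintype.ofFinite V'
    rw [Fintype.bijective_iff_injective_and_card]
    exact ⟨hin, by rwa [Nat.card_eq_fintype_card, Nat.card_eq_fintype_card] at hcard⟩
  exact ⟨⟨Equiv.ofBijective φ hbij, fun {a b} =>
    hφ.adj a (Finset.mem_coe.2 (UF_univ hG.connected v a)) b
      (Finset.mem_coe.2 (UF_univ hG.connected v b))⟩⟩

end Pool.Agent.Helper40K9.Drn
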